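import Pool.Agent.helper43.Ex.SRg
import Pool.Agent.helper99.EX.UpF
import Pool.Agent.helper99.EX.Fin

/-!
The exact value of the minimum number of sums of nonempty subsets of an asymmetric `m`-subset of
`ℤ/n`, for all `m ≥ 2 ^ 401` and all `n > 2 m`.
-/

namespace Pool.Agent.Results.MP_2e436f_co.ExactValue

/-- the set of sums of the nonempty subsets of `A` -/
def NonemptySums (n : ℕ) (A : Finset (ZMod n)) : Finset (ZMod n) :=
  (A.powerset.filter (fun B => B.Nonempty)).image (fun B => ∑ b ∈ B, b)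

/-- the minimum over the divisors `h` of `n` of `h (1 + ∑_{i < m - (h-1)/2} (i/h + 1))` -/
noncomputable def F (n m : ℕ) : ℕ :=
  sInf {v : ℕ | ∃ h : ℕ, h ∣ n ∧
    v = h * (1 + ∑ i ∈ Finset.range (m - (h - 1) / 2), (i / h + 1))}

/-- the correction term, one of `0, 1, 2, 4` -/
def corr (n m : ℕ) : ℕ :=
  if m % 5 = 2 ∧ m * (m + 1) / 2 - 3 ∣ n then 4
  else if (m % 9 = 4 ∧ 9 ∣ n) ∨ m * (m + 1) / 2 - 1 ∣ n then 2
  else if (m % 3 = 1 ∧ 3 ∣ n) ∨ (m % 5 = 2 ∧ 5 ∣ n) ∨ m * (m + 1) / 2 ∣ n then 1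
  else 0

/-- the value of the minimum -/
noncomputable def G (n m : ℕ) : ℕ := min (F n m) (m * (m + 1) / 2 - corr n m)

theorem result (n m : ℕ) (hm : 2 ^ 401 ≤ m) (hn : 2 * m < n) :
    IsLeast {k : ℕ | ∃ A : Finset (ZMod n), A.card = m ∧ (∀ a ∈ A, -a ∉ A) ∧
      k = (NonemptySums n A).card} (G n m) := by
  have h3 : 2 ^ 3 ≤ 2 ^ 401 := Nat.pow_le_pow_right (by norm_num) (by norm_num)
  have h5 : 5 ≤ m := le_trans (le_trans (by norm_num) h3) hm
  have _ : NeZero n := ⟨by omega⟩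
  have hlow : ∀ A : Finset (ZMod n), A.card = m → (∀ a ∈ A, -a ∉ A) →
      G n m ≤ (NonemptySums n A).card := fun A h1 h2 =>
    helper43.Ex.lower_of_reg hm hn h2 h1 (fun F c K L N f Q h => helper99.EX.lower_reg h)
  obtain ⟨A, hA1, hA2, hA3⟩ := helper99.EX.upper h5 hn
  refine ⟨⟨A, hA1, hA2, le_antisymm (hlow A hA1 hA2) hA3⟩, ?_⟩
  rintro k ⟨A', h1, h2, rfl⟩
  exact hlow A' h1 h2

end Pool.Agent.Results.MP_2e436f_co.ExactValue
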