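import Pool.Agent.helper43.Rho.Main
import Pool.Agent.helper43.Rho.Upper
import Pool.Agent.helper43.Rho.Numeric

/-!
The minimum number of sums of nonempty subsets of an asymmetric `m`-subset of `ℤ/n`, for every
`n` and every `m` of order at least the square root of `n`.
-/

namespace Pool.Agent.Results.MP_2e436f_co.MinimumLargeSets

/-- the set of sums of the nonempty subsets of `A` -/
def NonemptySums (n : ℕ) (A : Finset (ZMod n)) : Finset (ZMod n) :=
  (A.powerset.filter (fun B => B.Nonempty)).image (fun B => ∑ b ∈ B, b)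

theorem result (n m : ℕ) (hm : 2 * m < n)
    (h : 25 * n ≤ m ^ 2 ∨ (10000 ≤ m ∧ 5 * n ≤ m ^ 2) ∨ (2 ^ 20 ≤ m ∧ 41 * n ≤ 10 * m ^ 2)) :
    IsLeast {k : ℕ | ∃ A : Finset (ZMod n), A.card = m ∧ (∀ a ∈ A, -a ∉ A) ∧
        k = (NonemptySums n A).card}
      (sInf {v : ℕ | ∃ d : ℕ, d ∣ n ∧ m < d ∧ v = d * (1 + (m - (d - 1) / 2))}) := by
  have hn : 0 < n := by omega
  have _ : NeZero n := ⟨by omega⟩
  have hcard : Nat.card (ZMod n) = n := by simp
  have hpar : ∃ ρ J I K0, helper43.Rho.Params n m ρ J I K0 := by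
    rcases h with h | ⟨h1, h⟩ | ⟨h1, h⟩
    · have hm51 : 51 ≤ m := by
        by_contra hlt
        have h1 : m ≤ 50 := by omega
        have h2 : m ^ 2 ≤ 50 * m := by
          rw [pow_two]; exact Nat.mul_le_mul_right _ h1
        omega
      by_cases h5 : m < 512
      · exact helper43.Rho.params_small hm51 h5 h
      · exact helper43.Rho.params_a (by omega) (by omega) h
    · exact helper43.Rho.params_b hm h1 h
    · exact helper43.Rho.params_c (by omega) h1 h
  obtain ⟨ρ, J, I, K0, p1, p2, p3, p4, p5, p6, p7, p8⟩ := hpar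
  -- lower bound
  have hlow : ∀ A : Finset (ZMod n), A.card = m → (∀ a ∈ A, -a ∉ A) →
      sInf {v : ℕ | ∃ d : ℕ, d ∣ n ∧ m < d ∧ v = d * (1 + (m - (d - 1) / 2))} ≤
        (NonemptySums n A).card := by
    intro A hA hasym
    obtain ⟨K, hK1, hK2⟩ := helper43.Rho.lower2 (A := A) hasym hA p1 p2 p3
      (by rw [hcard]; exact p4) p5 p6 (by rw [hcard]; exact p7) (by rw [hcard]; exact p8)
    refine le_trans (Nat.sInf_le ?_) hK2
    refine ⟨Nat.card K, ?_, hK1, rfl⟩
    have := AddSubgroup.card_addSubgroup_dvd_card K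
    rwa [hcard] at this
  have hne : {v : ℕ | ∃ d : ℕ, d ∣ n ∧ m < d ∧ v = d * (1 + (m - (d - 1) / 2))}.Nonempty :=
    ⟨_, n, dvd_rfl, by omega, rfl⟩
  obtain ⟨d, hd1, hd2, hd3⟩ := Nat.sInf_mem hne
  obtain ⟨A, hA1, hA2, hA3⟩ := helper43.Rho.upper hm hd1 hd2
  constructor
  · refine ⟨A, hA1, hA2, ?_⟩
    apply le_antisymm
    · exact hlow A hA1 hA2
    · rw [hd3]; exact hA3
  · rintro k ⟨B, hB1, hB2, rfl⟩
    exact hlow B hB1 hB2

end Pool.Agent.Results.MP_2e436f_co.MinimumLargeSets
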